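import Pool.Agent.KS6_48.CYC.Main

set_option autoImplicit false

/-!
# Every positive integer is a value of `t_SCC` on 3-connected graphs: smaller graphs

For every `t ≥ 3` and every `L` there is a 3-connected simple graph with degrees three and four, with
`t_SCC(G) = t`, with at most `(4 / 9) 12 ^ (t - 2) t! (2 t - 1 + L)` vertices, and with an edge that
lies in at least `t` cycles of every cycle cover that is at most `L` longer than a shortest cycle
cover. For `t = 1` and every `L`, and for `t = 2` and `L = 0`, six vertices suffice.

The gadgets of the library result `EveryValue` are used with chain lengths that depend on the level,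
so that only the last chain depends on `L`.
-/

namespace Pool.Agent.Results.MP_c57e60_co.EveryValueSmallGraphs

open Pool.Agent.Results.MP_c57e60_co.Unbounded (ThreeConnected IsCycleCover coverLength
  IsShortestCover mult maxMult tSCC mult_le_max)

/-- **Every positive integer is a value of `t_SCC` on 3-connected graphs.** For every `t ≥ 1` and
every `L` (with `L = 0` if `t = 2`) there is a 3-connected simple graph `G` such that
* every vertex has degree three or four,
* `G` has at most six vertices if `t ≤ 2`, and at most `(4 / 9) 12 ^ (t - 2) t! (2 t - 1 + L)`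
  vertices if `t ≥ 3`,
* `G` has a shortest cycle cover, and `t_SCC(G) = t`,
* some edge of `G` lies in at least `t` cycles of every cycle cover of `G` whose length exceeds
  that of a shortest cycle cover by at most `L`. -/
theorem result : ∀ t L : ℕ, 1 ≤ t → (t ≠ 2 ∨ L = 0) →
    ∃ (V : Type) (_ : Fintype V) (_ : DecidableEq V) (G : SimpleGraph V),
      ThreeConnected G ∧
      (∀ v, (G.neighborSet v).ncard = 3 ∨ (G.neighborSet v).ncard = 4) ∧
      (t ≤ 2 → Fintype.card V ≤ 6) ∧
      (3 ≤ t → 9 * Fintype.card V ≤ 4 * 12 ^ (t - 2) * t.factorial * (2 * t - 1 + L)) ∧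
      (∃ F, IsShortestCover G F) ∧
      tSCC G = t ∧
      ∃ e ∈ G.edgeSet, ∀ F, IsCycleCover G F →
        (∀ F', IsShortestCover G F' → coverLength F ≤ coverLength F' + L) → t ≤ mult F e := by
  intro t L ht hL
  rcases Nat.lt_or_ge t 3 with h | h
  · obtain ⟨V, i1, i2, G, h1, h2, h3, h4, h5, h6⟩ :=
      Pool.Agent.Results.MP_c57e60_co.EveryValue.result t L ht hL
    refine ⟨V, i1, i2, G, h1, h2, fun _ => ?_, fun h' => absurd h' (by omega), h4, h5, h6⟩
    rw [show t - 2 = 0 by omega, pow_zero, mul_one] at h3
    exact h3
  · obtain ⟨V, i1, i2, G, h1, h2, h3, h4, h5, h6⟩ := Pool.Agent.KS6_48.CYC.main t L h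
    exact ⟨V, i1, i2, G, h1, h2, fun h' => absurd h' (by omega), fun _ => h3, h4, h5, h6⟩

end Pool.Agent.Results.MP_c57e60_co.EveryValueSmallGraphs
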